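import Pool.Agent.helper65.PP.RAD

/-!
# Project pp: K1: fixed points
-/

set_option autoImplicit false

open Complex Metric Set Filter Topology MeasureTheory MPS MQ

noncomputable section

namespace PPS

theorem K1 : K1_stmt := by
  intro n a hn ha
  obtain ⟨A, hA1, hA⟩ := RAD n a hn ha
  refine ⟨min (Real.log 2) (min (1 / (2 * A)) (1 / (3 * a))), ?_, ?_⟩
  · have : 0 < Real.log 2 := Real.log_pos (by norm_num)
    positivity
  intro f b g hf hb hρ hg
  have hb1 : ∀ i : ZMod 1, b i = b 0 := fun i => by rw [Subsingleton.elim i 0]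
  have hg1 : ∀ i : ZMod 1, g i = g 0 := fun i => by rw [Subsingleton.elim i 0]
  set z := b 0 with hz
  have hrho : rho f b = fd f z := by
    rw [rho, Fintype.prod_subsingleton _ (0 : ZMod 1)]
  have hfix : f.eval z = z := by
    have := hb.step 0
    rw [hb1 (0 + 1)] at this
    exact this
  have hzA : ‖z‖ < A := (hA f hf).2.2 1 z one_pos (by
    rw [Function.iterate_one]; exact hfix)
  have hlam : ∀ m, lam f b g m = (m : ℂ) * z ^ (m - 1) / fd f z + g 0 * z ^ m := by
    intro m
    rw [lam, Fintype.sum_subsingleton _ (0 : ZMod 1), hg1 (0 + 1)]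
  have hS0 : 0 ≤ ∑ m ∈ Finset.range (n - 1), ‖lam f b g m‖ :=
    Finset.sum_nonneg fun _ _ => norm_nonneg _
  have hlog : 0 < Real.log ‖rho f b‖ := Real.log_pos hρ
  rcases le_or_gt 2 ‖rho f b‖ with h2 | h2
  · have h3 : Real.log 2 ≤ Real.log ‖rho f b‖ := Real.log_le_log (by norm_num) h2
    calc _ ≤ Real.log 2 := min_le_left _ _
      _ ≤ _ := by linarith
  have hρ0 : fd f z ≠ 0 := hb.ne0 0
  rw [hrho] at hρ h2
  have hρpos : 0 < ‖fd f z‖ := by linarith
  rcases (show n = 2 ∨ 3 ≤ n by omega) with h | h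
  · -- degree two
    subst h
    have hmem : ‖lam f b g 0‖ ≤ ∑ m ∈ Finset.range (2 - 1), ‖lam f b g m‖ := by
      simp
    have hl0 : lam f b g 0 = g 0 := by
      rw [hlam]; simp
    have hex := hg 0
    rw [hg1 (0 + 1), ← hz] at hex
    have h4 : g 0 * (fd f z * (fd f z - 1)) = - fdd f z := by
      field_simp at hex
      linear_combination hex
    have h5 : fdd f z = 2 * f.leadingCoeff := by
      have hd : f.derivative.derivative.natDegree ≤ 0 := by
        have h6 := Polynomial.natDegree_derivative_le f.derivative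
        have h7 := Polynomial.natDegree_derivative_le f
        rw [hf.1] at h7
        omega
      rw [fdd, Polynomial.eq_C_of_natDegree_le_zero hd, Polynomial.eval_C,
        Polynomial.coeff_derivative, Polynomial.coeff_derivative, Polynomial.leadingCoeff, hf.1]
      norm_num
      ring
    have h6 : ‖fdd f z‖ = 2 * ‖f.leadingCoeff‖ := by
      rw [h5, norm_mul]; norm_num
    have h7 : ‖g 0‖ * (‖fd f z‖ * ‖fd f z - 1‖) = 2 * ‖f.leadingCoeff‖ := by
      rw [← h6, ← norm_neg (fdd f z), ← h4, norm_mul, norm_mul]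
    have h8 : ‖fd f z - 1‖ ≤ 3 := by
      calc ‖fd f z - 1‖ ≤ ‖fd f z‖ + ‖(1 : ℂ)‖ := norm_sub_le _ _
        _ ≤ 3 := by rw [norm_one]; linarith
    have h9 : ‖fd f z‖ * ‖fd f z - 1‖ ≤ 6 := by
      calc ‖fd f z‖ * ‖fd f z - 1‖ ≤ 2 * 3 :=
            mul_le_mul h2.le h8 (norm_nonneg _) (by norm_num)
        _ = 6 := by norm_num
    have h10 : 2 ≤ 6 * a * ‖g 0‖ := by
      have h11 : 2 * ‖f.leadingCoeff‖ ≤ ‖g 0‖ * 6 := by
        rw [← h7]
        exact mul_le_mul_of_nonneg_left h9 (norm_nonneg _)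
      have h12 := hf.2.2
      nlinarith
    have h13 : 1 / (3 * a) ≤ ‖g 0‖ := by
      rw [div_le_iff₀ (by positivity)]
      linarith
    calc _ ≤ 1 / (3 * a) := (min_le_right _ _).trans (min_le_right _ _)
      _ ≤ ‖g 0‖ := h13
      _ ≤ _ := by rw [hl0] at hmem; linarith
  · -- degree at least three
    have h4 : ‖lam f b g 0‖ + ‖lam f b g 1‖ ≤ ∑ m ∈ Finset.range (n - 1), ‖lam f b g m‖ := by
      calc ‖lam f b g 0‖ + ‖lam f b g 1‖ = ∑ m ∈ Finset.range 2, ‖lam f b g m‖ := by
            rw [Finset.sum_range_succ, Finset.sum_range_one]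
        _ ≤ _ := Finset.sum_le_sum_of_subset_of_nonneg
            (Finset.range_mono (by omega)) fun _ _ _ => norm_nonneg _
    have h5 : 1 / fd f z = lam f b g 1 - z * lam f b g 0 := by
      rw [hlam, hlam]; simp; ring
    have h6 : 1 / 2 ≤ ‖1 / fd f z‖ := by
      rw [norm_div, norm_one]
      exact one_div_le_one_div_of_le hρpos h2.le
    have h7 : ‖1 / fd f z‖ ≤ ‖lam f b g 1‖ + A * ‖lam f b g 0‖ := by
      rw [h5]
      refine (norm_sub_le _ _).trans ?_
      rw [norm_mul]
      have := mul_le_mul_of_nonneg_right hzA.le (norm_nonneg (lam f b g 0))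
      linarith
    have h8 : ‖lam f b g 1‖ ≤ A * ‖lam f b g 1‖ := le_mul_of_one_le_left (norm_nonneg _) hA1
    have h9 : 1 / 2 ≤ A * (‖lam f b g 0‖ + ‖lam f b g 1‖) := by linarith
    have h10 : 1 / (2 * A) ≤ ‖lam f b g 0‖ + ‖lam f b g 1‖ := by
      rw [div_le_iff₀ (by positivity)]
      linarith
    calc _ ≤ 1 / (2 * A) := (min_le_right _ _).trans (min_le_left _ _)
      _ ≤ _ := by linarith

end PPS
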