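import Pool.Agent.helper36.PP.SpecE

/-!
# Project pp: RAD: escape radius; K1: fixed points
-/

set_option autoImplicit false

open Complex Metric Set Filter Topology MeasureTheory MPS MQ

noncomputable section

namespace PPS

theorem RAD_one {n : ℕ} {a : ℝ} {f : Polynomial ℂ} (ha : 0 < a) (hf : Bd n a f) : 1 ≤ a := by
  have h1 : ‖f.leadingCoeff‖ ≤ a := hf.2.1 _
  have h2 : 1 ≤ a * a := hf.2.2.trans (mul_le_mul_of_nonneg_left h1 ha.le)
  nlinarith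

theorem RAD_low {n : ℕ} {a : ℝ} {f : Polynomial ℂ} (hn : 2 ≤ n) (ha : 0 < a) (hf : Bd n a f)
    (z : ℂ) (hz : a * (n * a + 2) ≤ ‖z‖) : 2 * ‖z‖ ≤ ‖f.eval z‖ := by
  have ha1 := RAD_one ha hf
  have hn0 : (0 : ℝ) ≤ n := Nat.cast_nonneg n
  have hz1 : 1 ≤ ‖z‖ := by
    have : (1 : ℝ) ≤ a * (n * a + 2) := by nlinarith [mul_nonneg hn0 ha.le]
    linarith
  have hsum : f.eval z = (∑ i ∈ Finset.range n, f.coeff i * z ^ i) + f.leadingCoeff * z ^ n := by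
    rw [Polynomial.eval_eq_sum_range, hf.1, Finset.sum_range_succ, Polynomial.leadingCoeff, hf.1]
  have h1 : ‖∑ i ∈ Finset.range n, f.coeff i * z ^ i‖ ≤ n * a * ‖z‖ ^ (n - 1) := by
    calc ‖∑ i ∈ Finset.range n, f.coeff i * z ^ i‖
        ≤ ∑ i ∈ Finset.range n, ‖f.coeff i * z ^ i‖ := norm_sum_le _ _
      _ ≤ ∑ _i ∈ Finset.range n, a * ‖z‖ ^ (n - 1) := by
          refine Finset.sum_le_sum fun i hi => ?_
          rw [norm_mul, norm_pow]
          have hi' := Finset.mem_range.1 hi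
          exact mul_le_mul (hf.2.1 i) (pow_le_pow_right₀ hz1 (by omega)) (by positivity) ha.le
      _ = n * a * ‖z‖ ^ (n - 1) := by
          rw [Finset.sum_const, Finset.card_range, nsmul_eq_mul, mul_assoc]
  have h2 : ‖z‖ ^ n ≤ a * ‖f.leadingCoeff * z ^ n‖ := by
    rw [norm_mul, norm_pow, ← mul_assoc]
    exact le_mul_of_one_le_left (by positivity) hf.2.2
  have h3 : ‖f.leadingCoeff * z ^ n‖ ≤ ‖f.eval z‖ + ‖∑ i ∈ Finset.range n, f.coeff i * z ^ i‖ := by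
    have : f.leadingCoeff * z ^ n = f.eval z - ∑ i ∈ Finset.range n, f.coeff i * z ^ i := by
      rw [hsum]; ring
    rw [this]
    exact norm_sub_le _ _
  have h4 : ‖z‖ ^ n = ‖z‖ ^ (n - 1) * ‖z‖ := by
    rw [← pow_succ]; congr 1; omega
  have h5 : ‖z‖ ≤ ‖z‖ ^ (n - 1) := le_self_pow₀ hz1 (by omega)
  have hp : 0 ≤ ‖z‖ ^ (n - 1) := by positivity
  -- `a (‖f z‖ + n a ‖z‖^(n-1)) ≥ ‖z‖^(n-1) ‖z‖ ≥ ‖z‖^(n-1) a (n a + 2)`
  have h6 : ‖z‖ ^ (n - 1) * (a * (n * a + 2)) ≤ a * (‖f.eval z‖ + n * a * ‖z‖ ^ (n - 1)) := by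
    calc ‖z‖ ^ (n - 1) * (a * (n * a + 2)) ≤ ‖z‖ ^ (n - 1) * ‖z‖ :=
          mul_le_mul_of_nonneg_left hz hp
      _ = ‖z‖ ^ n := h4.symm
      _ ≤ a * ‖f.leadingCoeff * z ^ n‖ := h2
      _ ≤ a * (‖f.eval z‖ + n * a * ‖z‖ ^ (n - 1)) :=
          mul_le_mul_of_nonneg_left (h3.trans (by linarith)) ha.le
  have h7 : a * (2 * ‖z‖ ^ (n - 1)) ≤ a * ‖f.eval z‖ := by nlinarith
  have h8 := le_of_mul_le_mul_left h7 ha
  linarith

theorem RAD : RAD_stmt := by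
  intro n a hn ha
  have hn0 : (0 : ℝ) ≤ n := Nat.cast_nonneg n
  refine ⟨max 1 (a * (n * a + 2)), le_max_left _ _, fun f hf => ?_⟩
  have hA : (1 : ℝ) ≤ max 1 (a * (n * a + 2)) := le_max_left _ _
  have h1 : ∀ z : ℂ, max 1 (a * (n * a + 2)) ≤ ‖z‖ → 2 * ‖z‖ ≤ ‖f.eval z‖ := fun z hz =>
    RAD_low hn ha hf z ((le_max_right _ _).trans hz)
  refine ⟨h1, fun R y hR hy => ?_, fun k z hk hz => ?_⟩
  · by_contra hlt
    push Not at hlt
    have := h1 y (hR.trans hlt)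
    linarith
  · by_contra hlt
    push Not at hlt
    have h2 : ∀ j : ℕ, (2 : ℝ) ^ j * ‖z‖ ≤ ‖(fun w : ℂ => f.eval w)^[j] z‖ := by
      intro j
      induction j with
      | zero => simp
      | succ j ih =>
        rw [Function.iterate_succ_apply', pow_succ]
        have h3 : ‖z‖ ≤ 2 ^ j * ‖z‖ :=
          le_mul_of_one_le_left (norm_nonneg _) (one_le_pow₀ (by norm_num))
        have h4 := h1 _ (hlt.trans (h3.trans ih))
        calc (2 : ℝ) ^ j * 2 * ‖z‖ = 2 * (2 ^ j * ‖z‖) := by ring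
          _ ≤ 2 * ‖(fun w : ℂ => f.eval w)^[j] z‖ := by linarith
          _ ≤ _ := h4
    have h5 := h2 k
    rw [hz] at h5
    have h6 : (2 : ℝ) ≤ 2 ^ k := le_self_pow₀ (by norm_num) (by omega)
    have h7 : 0 < ‖z‖ := by linarith
    nlinarith

end PPS
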