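import Pool.Agent.helper25.PP.Spec

set_option autoImplicit false

namespace PP

open Finset SimpleGraph CT

/-- Project pp, module CH4: the union bound over the sizes of the large sets. -/
theorem CH4 (h : CH3_stmt) : CH4_stmt := by
  classical
  intro V _ _ hn
  set n := Fintype.card V with hnd
  set T : Finset ℕ := (Finset.range n).filter fun s => n ≤ 300 * s ∧ 2 * s ≤ n with hT
  have hsub : RP (V := V) E2 ⊆ T.biUnion fun s =>
      RP fun G : SimpleGraph V => ∃ S : Finset V, S.card = s ∧ dout G S ≤ 12 := by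
    intro G hG
    rw [mem_cc] at hG
    obtain ⟨h4, S, h1, h2, h3⟩ := hG
    rw [Finset.mem_biUnion]
    refine ⟨S.card, ?_, ?_⟩
    · rw [hT, Finset.mem_filter, Finset.mem_range]
      refine ⟨?_, h1, h2⟩
      have h1' : n ≤ 300 * S.card := h1
      have h2' : 2 * S.card ≤ n := h2
      omega
    · rw [mem_cc]
      exact ⟨h4, S, rfl, h3⟩
  have hcard : cc (V := V) E2 ≤ ∑ s ∈ T,
      cc fun G : SimpleGraph V => ∃ S : Finset V, S.card = s ∧ dout G S ≤ 12 :=
    (Finset.card_le_card hsub).trans Finset.card_biUnion_le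
  calc 2 ^ (n / 300) * cc (V := V) E2
      ≤ 2 ^ (n / 300) * ∑ s ∈ T,
          cc fun G : SimpleGraph V => ∃ S : Finset V, S.card = s ∧ dout G S ≤ 12 :=
        Nat.mul_le_mul_left _ hcard
    _ = ∑ s ∈ T, 2 ^ (n / 300) *
          cc fun G : SimpleGraph V => ∃ S : Finset V, S.card = s ∧ dout G S ≤ 12 :=
        Finset.mul_sum _ _ _
    _ ≤ ∑ s ∈ T, 7 * (2 * n ^ 2) ^ 6 * cc fun _ : SimpleGraph V => True := by
        apply Finset.sum_le_sum
        intro s hs
        rw [hT, Finset.mem_filter, Finset.mem_range] at hs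
        obtain ⟨-, h1, h2⟩ := hs
        refine le_trans ?_ (h V s (by omega) h2 (by omega))
        exact Nat.mul_le_mul_right _ (Nat.pow_le_pow_right (by norm_num) (by omega))
    _ = T.card * (7 * (2 * n ^ 2) ^ 6 * cc fun _ : SimpleGraph V => True) := by
        rw [Finset.sum_const, smul_eq_mul]
    _ ≤ n * (7 * (2 * n ^ 2) ^ 6 * cc fun _ : SimpleGraph V => True) := by
        apply Nat.mul_le_mul_right
        calc T.card ≤ (Finset.range n).card := Finset.card_filter_le _ _
          _ = n := Finset.card_range n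
    _ = n * (7 * (2 * n ^ 2) ^ 6) * cc fun _ : SimpleGraph V => True := by ring

end PP
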